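import Pool.Agent.Helper69.AS.St

/-!
# Project AS (MP_d112a4_gt), module TH: assembly
-/

set_option autoImplicit false

open Filter Topology Matrix Set MeasureTheory
open scoped ENNReal ComplexOrder

namespace Pool.Agent.Helper24.AS

open Pool.Agent.Helper35.PM Pool.Agent.Helper69.AS

theorem hTH (hQF : St_QF) (hPO : St_PO) (_hFL : StFL) (hDD : StDD) (hIV : StIV) (hEQ : StEQ) :
    StTH := by
  intro R ρ₀ hR hρ hρ1
  obtain ⟨C1, hC1, h1⟩ := hDD R hR
  obtain ⟨C2, hC2, h2⟩ := hEQ R ρ₀ hR hρ hρ1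
  refine ⟨max (C1 * Real.sqrt (C2 / 2)) C2, lt_of_lt_of_le hC2 (le_max_right _ _), ?_⟩
  intro g hg U hU F A hF hA hinv hcoc N hN
  have h0 : (0 : ℂ) ∈ Metric.ball (0 : ℂ) 1 := Metric.mem_ball_self one_pos
  have hF0 : HolDisc (fun z => F z 0) := hF 0 (by simp)
  have hPot : Pot (fun z => 1 / ent (F z 0))
      (fun p z => J (U (F p 0)) (F p 0) (F z 0)) :=
    hPO (SurfaceGroup g) (fun z => F z 0) U hF0.1 (fun z hz => hQF g hg _ (hF0.2 z hz))
      (fun z hz => hU _ (hF0.2 z hz))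
  obtain ⟨w, hw, hw1, hw2⟩ := h2 (fun z w => 1 / ent (F z w)) (fun p z => J (U (F p 0)) (F p 0) (F z 0)) A
    hPot hA (by
      intro x hx z w hz hw
      obtain ⟨φ, hφ⟩ := hinv x hx
      have h3 := hIV (SurfaceGroup g) φ _ _ (hφ z w hz hw)
      simp only [h3]) hcoc N hN
  have hh : 1 / 2 ≤ 1 / ent (F 0 0) := hPot.1 0 h0
  have hpos : 0 < ent (F 0 0) := by
    by_contra hneg
    have : 1 / ent (F 0 0) ≤ 0 := one_div_nonpos.2 (not_lt.1 hneg)
    linarith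
  have hN' : (0 : ℝ) < N := by exact_mod_cast hN
  refine ⟨w, hw, hw1.trans (Real.exp_le_exp.2 (mul_le_mul_of_nonneg_right (le_max_right _ _) hN'.le)), ?_⟩
  intro z hz
  refine (h1 g hg U hU (fun z => F z w) (hF w hw) z hz).trans ?_
  apply ENNReal.ofReal_le_ofReal
  have h4 : Real.sqrt (df (Real.tanh ((R + 2) / 2)) (fun z => 1 / ent (F z w))) ≤
      Real.sqrt (C2 / 2) * Real.sqrt ((2 - ent (F 0 0)) / (ent (F 0 0) * N)) := by
    rw [← Real.sqrt_mul (by positivity)]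
    apply Real.sqrt_le_sqrt
    refine hw2.trans (le_of_eq ?_)
    field_simp
  calc C1 * Real.sqrt (df (Real.tanh ((R + 2) / 2)) (fun z => 1 / ent (F z w)))
      ≤ C1 * (Real.sqrt (C2 / 2) * Real.sqrt ((2 - ent (F 0 0)) / (ent (F 0 0) * N))) :=
        mul_le_mul_of_nonneg_left h4 hC1.le
    _ = C1 * Real.sqrt (C2 / 2) * Real.sqrt ((2 - ent (F 0 0)) / (ent (F 0 0) * N)) := by ring
    _ ≤ max (C1 * Real.sqrt (C2 / 2)) C2 * Real.sqrt ((2 - ent (F 0 0)) / (ent (F 0 0) * N)) :=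
        mul_le_mul_of_nonneg_right (le_max_left _ _) (Real.sqrt_nonneg _)

end Pool.Agent.Helper24.AS
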